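import Mathlib
import Pool.Agent.W5h73.SP.Cover

set_option autoImplicit false

/-!
# The inequality for roots of polynomials of bounded length, also modulo an integer

All fields are subfields of `AlgebraicClosure ℚ`; subgroups of the multiplicative group are
subgroups of the unit group of `AlgebraicClosure ℚ`. A place is a valuation ring of
`AlgebraicClosure ℚ`.
-/

namespace Pool.Agent.Results.MP_f61260_nt.BoundedLength

open Polynomial
open Pool.Agent.H58P (Qb ht)
open Pool.Agent.W237.RK
open Pool.Agent.W5h73.SP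

/-- `β` lies in the division group of `Γ`: a positive power of `β` is an element of `Γ` -/
def InDivisionGroup (Γ : Subgroup (AlgebraicClosure ℚ)ˣ) (β : AlgebraicClosure ℚ) : Prop :=
  ∃ n : ℕ, 0 < n ∧ ∃ g ∈ Γ, β ^ n = (g : AlgebraicClosure ℚ)

/-- the field generated by the division group of `Γ` -/
noncomputable def divisionField (Γ : Subgroup (AlgebraicClosure ℚ)ˣ) :
    IntermediateField ℚ (AlgebraicClosure ℚ) :=
  IntermediateField.adjoin ℚ {y | InDivisionGroup Γ y}

/-- the degree of `α` over the field generated by the division group of `Γ` -/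
noncomputable def divisionDegree (Γ : Subgroup (AlgebraicClosure ℚ)ˣ)
    (α : AlgebraicClosure ℚ) : ℕ :=
  (minpoly (divisionField Γ) α).natDegree

/-- the field generated by all roots of unity and by all `n`-th roots of all elements of
`Γ`, for all positive integers `n` all of whose prime factors belong to `P` -/
noncomputable def smoothRootField (Γ : Subgroup (AlgebraicClosure ℚ)ˣ) (P : Finset ℕ) :
    IntermediateField ℚ (AlgebraicClosure ℚ) :=
  IntermediateField.adjoin ℚ
    ({y | ∃ n : ℕ, 0 < n ∧ y ^ n = 1} ∪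
      {y | ∃ n : ℕ, (0 < n ∧ ∀ q : ℕ, q.Prime → q ∣ n → q ∈ P) ∧
        ∃ g ∈ Γ, y ^ n = (g : AlgebraicClosure ℚ)})

/-- `g` is a sum of `k` monomials whose coefficients are radicals over `F`, that is, numbers which
have a positive power in `F` -/
def IsRadicalSum (F : IntermediateField ℚ (AlgebraicClosure ℚ)) (k : ℕ)
    (g : Polynomial (AlgebraicClosure ℚ)) : Prop :=
  ∃ (θ : Fin k → AlgebraicClosure ℚ) (e : Fin k → ℕ),
    (∀ j, ∃ m : ℕ, 0 < m ∧ θ j ^ m ∈ F) ∧ g = ∑ j, C (θ j) * X ^ e j

/-- `g` is a sum of `k` monomials whose coefficients are radicals over an extension of `F` of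
degree at most `M` -/
def HasLength (F : IntermediateField ℚ (AlgebraicClosure ℚ)) (k M : ℕ)
    (g : Polynomial (AlgebraicClosure ℚ)) : Prop :=
  ∃ E : IntermediateField F (AlgebraicClosure ℚ), FiniteDimensional F E ∧
    Module.finrank F E ≤ M ∧ IsRadicalSum (E.restrictScalars ℚ) k g

/-- `N > k ^ (k / 2)`, and `q = 1`, or `N` is a prime number and `q` is a power of `N` -/
def IsModulus (k N q : ℕ) : Prop :=
  k ^ k < N ^ 2 ∧ (q = 1 ∨ (N.Prime ∧ ∃ t : ℕ, q = N ^ t))

/-- `α` is a root of `g` modulo `N ^ (1 / q)`: at every place above `N`, the value `g(α)` is at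
most `|N| ^ (1 / q)` times `|a| max (1, |α|) ^ deg g` for some nonzero coefficient `a` of `g` -/
def IsRootModulo (N q : ℕ) (g : Polynomial (AlgebraicClosure ℚ)) (α : AlgebraicClosure ℚ) : Prop :=
  ∀ V : ValuationSubring (AlgebraicClosure ℚ), V.valuation (N : AlgebraicClosure ℚ) < 1 →
    ∃ i, g.coeff i ≠ 0 ∧ V.valuation (g.eval α) ^ q ≤
      V.valuation (N : AlgebraicClosure ℚ) *
        (V.valuation (g.coeff i) * max 1 (V.valuation α) ^ g.natDegree) ^ q

/-- the minimal polynomial of `α` over `F` is `u(X ^ n)` with `n > 0` and `deg u ≤ B` -/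
def IsExceptional (F : IntermediateField ℚ (AlgebraicClosure ℚ)) (B : ℕ)
    (α : AlgebraicClosure ℚ) : Prop :=
  ∃ n : ℕ, 0 < n ∧ ∃ u : Polynomial F, minpoly F α = u.comp (X ^ n) ∧ u.natDegree ≤ B

/-- **The inequality for roots of polynomials of bounded length, also modulo an integer.**
Let `h` be the absolute logarithmic Weil height, let `Γ` be a finitely generated subgroup of `ℚ̄*`,
let `D` be the degree and `f` the minimal polynomial of `α` over the field `ℚ(Γ_div)` generated by
the division group of `Γ`. Let `P` be a finite set of primes and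
`L = ℚ(μ_∞, Γ^{1/n} : n a product of primes of P)`.

The first part says that every algebraic number `α` is a root of a nonzero polynomial of degree `D`
which is a sum of finitely many monomials whose coefficients are radicals over `L`.

The second part: let `k`, `M`, `N`, `q` be natural numbers with `N > k ^ (k / 2)`, where `q = 1`, or
`N` is a prime number and `q` is a power of `N`. There are `c₀ > 0` and `B`, depending only on
`k`, `M`, `N`, `q`, and for each `Γ` and `P` there is `c > 0`, such that for all polynomials `g` and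
all nonzero roots `α` of `g`, or roots of `g` modulo `N ^ (1 / q)`, outside the division group
of `Γ`:

* if `g` is a sum of `k` monomials whose coefficients are radicals over an extension of degree at
  most `M` of `ℚ(Γ_div)`, then `h(α) ≥ c₀ / max (D, deg g)`, or `f = u(X ^ n)` with `deg u ≤ B`;
* if `g` is a sum of `k` monomials whose coefficients are radicals over an extension of degree at
  most `M` of `L`, then `h(α) ≥ c₀ / max (D, deg g)`, or `f = u(X ^ n)` with `deg u ≤ B` and
  `h(α) ≥ c / D`. -/
theorem result :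
    (∀ (Γ : Subgroup (AlgebraicClosure ℚ)ˣ) (P : Finset ℕ) (α : AlgebraicClosure ℚ),
      ∃ (k : ℕ) (g : Polynomial (AlgebraicClosure ℚ)), IsRadicalSum (smoothRootField Γ P) k g ∧
        g ≠ 0 ∧ g.natDegree = divisionDegree Γ α ∧ g.eval α = 0) ∧
    (∀ k M N q : ℕ, IsModulus k N q → ∃ c₀ : ℝ, 0 < c₀ ∧ ∃ B : ℕ,
      ∀ (Γ : Subgroup (AlgebraicClosure ℚ)ˣ), Γ.FG → ∀ (P : Finset ℕ), (∀ p ∈ P, p.Prime) →
      ∃ c : ℝ, 0 < c ∧ ∀ (g : Polynomial (AlgebraicClosure ℚ)) (α : AlgebraicClosure ℚ),
        α ≠ 0 → ¬ InDivisionGroup Γ α → (g ≠ 0 ∧ g.eval α = 0) ∨ IsRootModulo N q g α →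
        (HasLength (divisionField Γ) k M g →
          c₀ / (max (divisionDegree Γ α) g.natDegree : ℕ) ≤ NumberField.absLogHeight₁ α ∨
            IsExceptional (divisionField Γ) B α) ∧
        (HasLength (smoothRootField Γ P) k M g →
          c₀ / (max (divisionDegree Γ α) g.natDegree : ℕ) ≤ NumberField.absLogHeight₁ α ∨
            (IsExceptional (divisionField Γ) B α ∧
              c / divisionDegree Γ α ≤ NumberField.absLogHeight₁ α))) := by
  constructor
  · -- every number is a root of such a polynomial
    intro Γ P α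
    have hΓF : ∀ g ∈ Γ, (g : Qb) ∈ smoothRootField Γ P := by
      intro g hg
      apply IntermediateField.subset_adjoin
      right
      exact ⟨1, ⟨one_pos, fun r hr h1 => absurd (Nat.dvd_one.mp h1) hr.one_lt.ne'⟩, g, hg,
        by rw [pow_one]⟩
    exact cover_root Γ (smoothRootField Γ P) hΓF α
  · intro k M N q hmodulus
    have hadm : Adm N q := hmodulus.2
    have hk : had k < N := by
      have h1 : ((k : ℝ) ^ k) < (N : ℝ) ^ 2 := by exact_mod_cast hmodulus.1
      rw [had]
      exact (Real.sqrt_lt' (by
        rcases Nat.eq_zero_or_pos N with h0 | h0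
        · rw [h0] at hmodulus
          exact absurd hmodulus.1 (by simp)
        · exact_mod_cast h0)).mpr h1
    obtain ⟨c₁, hc₁, B₁, h₁⟩ := uniform_div k N q M hadm hk
    obtain ⟨c₂, hc₂, B₂, h₂⟩ := uncond_unif k N q M hadm hk
    refine ⟨min c₁ c₂, lt_min hc₁ hc₂, max B₁ B₂, ?_⟩
    intro Γ hΓ P hP
    obtain ⟨S, hS⟩ := id hΓ
    set T : Set Qb := (fun u : Qbˣ => (u : Qb)) '' (S : Set Qbˣ) with hT
    have hTf : Finite T := (S.finite_toSet.image _)
    set K : GF := IntermediateField.adjoin ℚ T with hK
    have hKfd : FiniteDimensional ℚ K :=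
      IntermediateField.finiteDimensional_adjoin fun x _ => Pool.Agent.H58P.qb_isIntegral x
    have hΓK : ∀ g ∈ Γ, (g : Qb) ∈ K := by
      intro g hg
      rw [← hS] at hg
      induction hg using Subgroup.closure_induction with
      | mem x hx => exact IntermediateField.subset_adjoin _ _ ⟨x, hx, rfl⟩
      | one => exact one_mem K
      | mul x y _ _ hx hy => rw [Units.val_mul]; exact mul_mem hx hy
      | inv x _ hx => rw [Units.val_inv_eq_inv_val]; exact inv_mem hx
    have hfield : fullField K Γ P = smoothRootField Γ P := by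
      apply le_antisymm
      · apply sup_le
        · rw [hK, IntermediateField.adjoin_le_iff]
          rintro _ ⟨x, hx, rfl⟩
          apply IntermediateField.subset_adjoin
          right
          exact ⟨1, ⟨one_pos, fun r hr h1 => absurd (Nat.dvd_one.mp h1) hr.one_lt.ne'⟩, x,
            by rw [← hS]; exact Subgroup.subset_closure hx, by rw [pow_one]⟩
        · exact le_rfl
      · exact le_sup_right
    have hμ : ∀ x : Qb, Tor x → x ∈ divisionField Γ := by
      rintro x ⟨n, hn, hx⟩
      apply IntermediateField.subset_adjoin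
      exact ⟨n, hn, 1, one_mem Γ, by rw [hx, Units.val_one]⟩
    have hle : fullField K Γ P ≤ Pool.Agent.TH53.BL.divF Γ := by
      rw [hfield, smoothRootField, IntermediateField.adjoin_le_iff]
      rintro x (hx | ⟨n, ⟨hn, -⟩, g, hg, hx⟩)
      · exact hμ x hx
      · apply IntermediateField.subset_adjoin
        exact ⟨n, hn, g, hg, hx⟩
    obtain ⟨c, hc, h⟩ := h₂ K Γ hKfd hΓ hΓK P hP hle
    rw [hfield] at h
    refine ⟨c, hc, ?_⟩
    intro g α hα hnd hroot
    have hroot' : ModRoot N q g.natDegree g α := by
      rcases hroot with ⟨hg0, h0⟩ | h0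
      · exact ModRoot.of_eq hadm.pos hg0 h0
      · exact h0
    have hD : 0 < divisionDegree Γ α :=
      minpoly.natDegree_pos (Pool.Agent.H58P.qb_isIntegral α).tower_top
    have hmax : 0 < max (divisionDegree Γ α) g.natDegree := lt_max_of_lt_left hD
    have hht := Pool.Agent.H58R.ht_nonneg α
    rw [Pool.Agent.H58P.absLogHeight₁_eq, div_le_iff₀ (by exact_mod_cast hmax),
      div_le_iff₀ (by exact_mod_cast hD)]
    have hbound : ∀ c' : ℝ, min c₁ c₂ ≤ c' → c' ≤ (g.natDegree : ℝ) * ht α →
        min c₁ c₂ ≤ ht α * ((max (divisionDegree Γ α) g.natDegree : ℕ) : ℝ) := by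
      intro c' hc' h3
      refine (hc'.trans h3).trans ?_
      rw [mul_comm]
      apply mul_le_mul_of_nonneg_left _ hht
      exact_mod_cast le_max_right (divisionDegree Γ α) g.natDegree
    constructor
    · rintro ⟨E, hE, hEM, hg⟩
      obtain ⟨hLF, hbd⟩ := bdExt_of_finrank (divisionField Γ) E hE M hEM
      rcases h₁ (divisionField Γ) hμ (E.restrictScalars ℚ) hLF hbd g hg α hα hroot' with
        h3 | ⟨n, hn, hexp, hdeg⟩
      · exact Or.inl (hbound c₁ (min_le_left _ _) h3)
      · right
        refine ⟨n, hn, _, ?_, hdeg.trans (le_max_left _ _)⟩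
        rw [← expand_eq_comp_X_pow]
        exact hexp
    · rintro ⟨E, hE, hEM, hg⟩
      obtain ⟨hLF, hbd⟩ := bdExt_of_finrank (smoothRootField Γ P) E hE M hEM
      rcases h (E.restrictScalars ℚ) hLF hbd g hg α hα hnd hroot' with
        h3 | ⟨⟨n, hn, hexp, hdeg⟩, h3⟩
      · exact Or.inl (hbound c₂ (min_le_right _ _) h3)
      · right
        refine ⟨⟨n, hn, minpoly (divisionField Γ) (α ^ n), ?_,
          hdeg.trans (le_max_right _ _)⟩, ?_⟩
        · exact hexp.trans (expand_eq_comp_X_pow _)
        · rw [mul_comm]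
          exact h3

end Pool.Agent.Results.MP_f61260_nt.BoundedLength
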