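import Pool.Agent.W5h77.RQ.Fin

/-!
# Rémond's inequality over the field of all roots of unity, for the quadratic mean height

Rémond's conjecture for `Γ = 1` (the relative Lehmer problem over `ℚ(μ_∞)`) says that the mean of
`log⁺ |w|` over the conjugates `w` of an algebraic integer `z ≠ 0` that is not a root of unity is at
least `c / D`, where `D = [ℚ(μ_∞, z) : ℚ(μ_∞)]`. We prove this for the quadratic mean in place of the
mean, with `c = 1 / √640`:

  `(mean of (log⁺ |w|)²)^(1/2) ≥ (1 / √640) / D`.

Consequences: `log |w| ≥ (1 / 26) / D` for some conjugate `w` (the Schinzel-Zassenhaus form of the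
relative Lehmer problem over `ℚ(μ_∞)`; for `D = [ℚ(z) : ℚ]` this is Dimitrov's theorem up to the
value of the constant), and `h(z) W ≥ (1 / 640) / D²` if `log |w| ≤ W` for all conjugates `w` (so
the inequality of Rémond holds for all `z` with `log |w| ≤ C / D` for all conjugates `w`, with
`c = 1 / (640 C)`). The same inequalities hold over `K(μ_∞)`, for all number fields `K`, with
`[K : ℚ] [K(μ_∞, z) : K(μ_∞)]` in place of `D`.

Method. Let `ζ` be a primitive `m`-th root of unity, `f` the minimal polynomial of `z` over `ℚ(ζ)`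
and `f_k` the polynomial with the `k`-th powers of the zeros of `f` as zeros. If `m` is odd, let
`φ ζ = ζ²`; then the reverses of `f_4` and `φ f_2` are congruent modulo `4`, and the square root of
their product is a power series over `ℤ[ζ]`. If `4 ∣ m`, let `τ ζ = -ζ`; then `τ` is the identity
modulo `2`, and the same holds for `f_2` and `τ f_2`. The norms of the Hankel determinants of the
coefficients are bounded by an energy inequality for stars, applied to all conjugates
(`Pool/Agent/H904L2`, there for `ℚ`); if the quadratic mean is small, the power series is rational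
in all embeddings. Comparing multiplicities of zeros shows in the first case that `-z` is a
conjugate of `z` over `ℚ(ζ)`, so that one can pass to `z²`; in the second case this is so, or
`z` or `ζ z` is fixed by an extension of `τ`, and one can pass from `m` to `m / 2`.
-/

set_option autoImplicit false

open Polynomial

namespace Pool.Agent.Results.MP_f61260_nt.QuadraticMean

/-- the division group of `Γ`, as in the problem -/
def GDiv (Γ : Subgroup ℂˣ) : Set ℂ := {z : ℂ | z ≠ 0 ∧ ∃ n : ℕ, 1 ≤ n ∧ ∃ g ∈ Γ, (g : ℂ) = z ^ n}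

/-- the degree `D_Γ(z)` of `z` over the field generated by the division group, as in the problem -/
noncomputable def deg (Γ : Subgroup ℂˣ) (z : ℂ) : ℕ :=
  (minpoly (IntermediateField.adjoin ℚ (GDiv Γ)) z).natDegree

/-- the complex conjugates of `z`: the zeros of the minimal polynomial over `ℤ` -/
noncomputable def conj (z : ℂ) : Multiset ℂ := ((minpoly ℤ z).map (Int.castRingHom ℂ)).roots

/-- the mean of `(log⁺ |w|)²` over the conjugates `w` of the algebraic integer `z` -/
noncomputable def quadMean (z : ℂ) : ℝ :=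
  ((conj z).map fun w => (Real.posLog ‖w‖) ^ 2).sum / (minpoly ℤ z).natDegree

/-- the absolute logarithmic height of the algebraic integer `z`: the logarithm of the Mahler
measure of its minimal polynomial over `ℤ`, divided by the degree -/
noncomputable def height (z : ℂ) : ℝ :=
  Real.log ((minpoly ℤ z).map (Int.castRingHom ℂ)).mahlerMeasure / (minpoly ℤ z).natDegree

/-- the three inequalities, with `D` in place of the degree -/
def Ineq (z : ℂ) (D : ℝ) : Prop :=
  1 / 640 ≤ D ^ 2 * quadMean z ∧
  (∃ w ∈ conj z, 1 / 26 ≤ D * Real.log ‖w‖) ∧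
  ∀ W : ℝ, (∀ w ∈ conj z, Real.log ‖w‖ ≤ W) → 1 / 640 ≤ D ^ 2 * (height z * W)

theorem height_eq (z : ℂ) (hz : IsIntegral ℤ z) :
    height z = ((conj z).map fun w => Real.posLog ‖w‖).sum / (minpoly ℤ z).natDegree := by
  unfold height conj
  congr 1
  have hm : (minpoly ℤ z).Monic := minpoly.monic hz
  rw [← logMahlerMeasure_eq_log_MahlerMeasure, logMahlerMeasure_eq_log_leadingCoeff_add_sum_log_roots]
  rw [(hm.map (Int.castRingHom ℂ)).leadingCoeff]
  simp

theorem card_conj (z : ℂ) (hz : IsIntegral ℤ z) :
    Multiset.card (conj z) = (minpoly ℤ z).natDegree := by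
  have hm : (minpoly ℤ z).Monic := minpoly.monic hz
  unfold conj
  rw [← hm.natDegree_map (Int.castRingHom ℂ)]
  exact ((IsAlgClosed.splits _).natDegree_eq_card_roots).symm

/-- everything follows from the first inequality -/
theorem ineq_of (z : ℂ) (hz : IsIntegral ℤ z) (D : ℝ) (hD : 0 ≤ D)
    (h : 1 / 640 ≤ D ^ 2 * quadMean z) : Ineq z D := by
  have hd : 0 < (minpoly ℤ z).natDegree := minpoly.natDegree_pos hz
  have hdR : (0 : ℝ) < (minpoly ℤ z).natDegree := by exact_mod_cast hd
  have hcard := card_conj z hz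
  refine ⟨h, ?_, ?_⟩
  · by_contra hcon
    push Not at hcon
    have hD0 : 0 < D := by
      rcases hD.eq_or_lt with h1 | h1
      · rw [← h1] at h
        norm_num at h
      · exact h1
    have h1 : ∀ x ∈ (conj z).map (fun w => (Real.posLog ‖w‖) ^ 2), x ≤ (1 / (26 * D)) ^ 2 := by
      intro x hx
      obtain ⟨w, hw, rfl⟩ := Multiset.mem_map.1 hx
      apply pow_le_pow_left₀ Real.posLog_nonneg
      unfold Real.posLog
      apply max_le (by positivity)
      have h2 := (hcon w hw).le
      rw [le_div_iff₀ (by positivity)]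
      linarith
    have h2 := Multiset.sum_le_card_nsmul _ _ h1
    rw [Multiset.card_map, hcard, nsmul_eq_mul] at h2
    have h3 : quadMean z ≤ (1 / (26 * D)) ^ 2 := by
      unfold quadMean
      rw [div_le_iff₀ hdR]
      linarith
    have h4 : D ^ 2 * quadMean z ≤ D ^ 2 * (1 / (26 * D)) ^ 2 :=
      mul_le_mul_of_nonneg_left h3 (sq_nonneg D)
    have h5 : D ^ 2 * (1 / (26 * D)) ^ 2 = 1 / 676 := by
      field_simp
      norm_num
    rw [h5] at h4
    linarith
  · intro W hW
    have hW0 : 0 ≤ W := by
      by_contra hneg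
      push Not at hneg
      have h1 : ∀ x ∈ (conj z).map (fun w => (Real.posLog ‖w‖) ^ 2), x ≤ 0 := by
        intro x hx
        obtain ⟨w, hw, rfl⟩ := Multiset.mem_map.1 hx
        have h2 := hW w hw
        have h3 : Real.posLog ‖w‖ = 0 := by
          unfold Real.posLog
          exact max_eq_left (by linarith)
        rw [h3]
        norm_num
      have h2 := Multiset.sum_le_card_nsmul _ _ h1
      rw [smul_zero] at h2
      have h3 : quadMean z ≤ 0 := by
        unfold quadMean
        exact div_nonpos_of_nonpos_of_nonneg h2 hdR.le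
      have h4 : D ^ 2 * quadMean z ≤ 0 := mul_nonpos_of_nonneg_of_nonpos (sq_nonneg D) h3
      linarith
    have h1 : ((conj z).map fun w => (Real.posLog ‖w‖) ^ 2).sum ≤
        ((conj z).map fun w => Real.posLog ‖w‖ * W).sum := by
      apply Multiset.sum_map_le_sum_map
      intro w hw
      rw [sq]
      apply mul_le_mul_of_nonneg_left _ Real.posLog_nonneg
      unfold Real.posLog
      exact max_le hW0 (hW w hw)
    rw [Multiset.sum_map_mul_right] at h1
    have h2 : quadMean z ≤ height z * W := by
      rw [height_eq z hz]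
      unfold quadMean
      rw [div_mul_eq_mul_div]
      exact div_le_div_of_nonneg_right h1 hdR.le
    exact h.trans (mul_le_mul_of_nonneg_left h2 (sq_nonneg D))

theorem adjoin_eq (Γ : Subgroup ℂˣ) (hΓ : ∀ g ∈ Γ, IsOfFinOrder g) :
    IntermediateField.adjoin ℚ (GDiv Γ) = Pool.Agent.Y947.RL.QAb := by
  unfold Pool.Agent.Y947.RL.QAb
  congr 1
  ext z
  constructor
  · rintro ⟨-, n, hn, g, hg, hgz⟩
    obtain ⟨k, hk, hgk⟩ := isOfFinOrder_iff_pow_eq_one.1 (hΓ g hg)
    refine ⟨n * k, by positivity, ?_⟩
    rw [pow_mul, ← hgz, ← Units.val_pow_eq_pow_val, hgk, Units.val_one]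
  · rintro ⟨n, hn, hz⟩
    refine ⟨?_, n, hn, 1, one_mem Γ, ?_⟩
    · rintro rfl
      rw [zero_pow hn.ne'] at hz
      exact zero_ne_one hz
    · rw [hz]
      rfl

/-- **Main result.** Let `Γ` be a group of roots of unity (for instance `Γ = 1`) and `z ≠ 0` an
algebraic integer outside the division group of `Γ`, that is, not a root of unity.

(1) The inequalities `Ineq z D` hold with `D = D_Γ(z)`.

(2) For every number field `K` they hold with `D = [K : ℚ] [F(z) : F]`, where `F = K(Γ_div)`. -/
theorem result (Γ : Subgroup ℂˣ) (hΓ : ∀ g ∈ Γ, IsOfFinOrder g) (z : ℂ) (hz : IsIntegral ℤ z)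
    (h0 : z ≠ 0) (hzΓ : z ∉ GDiv Γ) :
    Ineq z (deg Γ z) ∧
    ∀ (K : IntermediateField ℚ ℂ) [FiniteDimensional ℚ K],
      Ineq z (Module.finrank ℚ K *
        (minpoly (K ⊔ IntermediateField.adjoin ℚ (GDiv Γ) : IntermediateField ℚ ℂ) z).natDegree) := by
  have hr : ∀ n : ℕ, 0 < n → z ^ n ≠ 1 := by
    intro n hn h
    exact hzΓ ⟨h0, n, hn, 1, one_mem Γ, by rw [h]; rfl⟩
  have hmain : 1 / 640 ≤ ((minpoly Pool.Agent.Y947.RL.QAb z).natDegree : ℝ) ^ 2 * quadMean z :=
    Pool.Agent.W5h77.RQ.main_QAb z hz h0 hr
  have hA := adjoin_eq Γ hΓ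
  have hq : 0 ≤ quadMean z := Pool.Agent.W5h77.RQ.quadMean_nonneg z
  refine ⟨?_, ?_⟩
  · apply ineq_of z hz _ (Nat.cast_nonneg _)
    unfold deg
    rw [hA]
    exact hmain
  · intro K _
    apply ineq_of z hz _ (by positivity)
    rw [hA]
    have h1 := Pool.Agent.Y932.RL.Tow.tow K z (hz.tower_top (R := ℤ) (A := ℚ)).isAlgebraic
    have h2 : ((minpoly Pool.Agent.Y947.RL.QAb z).natDegree : ℝ) ≤ (Module.finrank ℚ K : ℝ) *
        (minpoly (K ⊔ Pool.Agent.Y947.RL.QAb : IntermediateField ℚ ℂ) z).natDegree := by
      exact_mod_cast h1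
    exact hmain.trans (mul_le_mul_of_nonneg_right (pow_le_pow_left₀ (Nat.cast_nonneg _) h2 2) hq)

end Pool.Agent.Results.MP_f61260_nt.QuadraticMean
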