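import Mathlib
import Pool.Agent.W5h24.RE.E2
import Pool.Agent.W5h24.RE.T2
import Pool.Agent.W5h24.RE.V3
import Pool.Agent.W5h24.RE.X

/-!
# Equidistribution and heights relative to an arbitrary field, and Rémond's inequality

Let `F` be any field of complex numbers, for instance `F = ℚ(Γ_div)` for a subgroup `Γ` of `ℂ*`, let
`α` be a nonzero algebraic number, `D` its degree over `F` (so `D = D_Γ(α)` for `F = ℚ(Γ_div)`), and
`h(α)` its height. The conjugates of `α` over `F` lie in the Galois closure `NC α` of `ℚ(α)`; the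
embeddings `σ` of `NC α` in `ℂ` map them to `D` complex numbers.

* (1) **Relative equidistribution** (Bilu's theorem over an arbitrary field): for every bounded
  continuous function `g` on `ℂ` and every `ε > 0` there are `θ > 0` and `D₀`, independent of `F`,
  such that for all `F` and `α` with `h(α) ≤ θ` and `D ≥ D₀` the mean over the embeddings `σ` of the
  absolute difference between the mean of `g` over the images under `σ` of the conjugates of `α`
  over `F` and the mean of `g` over the unit circle is at most `ε`. Explicitly, let `D ≥ 2` and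
  `1 ≤ k ≤ D`. The mean over `σ` of the square of the absolute value of the mean of `(w / |w|) ^ k`
  over the images `w` of the conjugates of `α` over `F` is at most
  `4 k (3 h(α) + (log D + 1 / 2) / D)`, and the mean of `|log |w||` over `σ` and `w` is at most
  `2 h(α)`.

* (2) **Real numbers** (Schinzel's and Garza's theorems over an arbitrary field): let `β` be an
  algebraic number such that at least `ρ [ℚ(β) : ℚ]` of its conjugates over `ℚ` are real (`ρ = 1` if
  `β` is totally real), let `a` and `b` be in `F`, `a ≠ 0`, let `α = a β + b` be algebraic and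
  `D ≥ 2`. Then `h(α) ≥ ρ³ / 130000 - (1 / 3) (log D + 1 / 2) / D`.

* (3) **p-adic numbers** (the theorem of Bombieri and Zannier over an arbitrary field): let `L` be a
  finite Galois extension of `ℚ` and `S` a finite set of primes such that for every `p` in `S` the
  primes of `L` above `p` have norm at most `q_p` and ramification index at most `e_p` over `p`. Let
  `α = (a₁ γ₁ + ... + aₙ γₙ) / (b₁ γ₁ + ... + bₙ γₙ)` be algebraic with `aᵢ` and `bᵢ` in `F` and `γᵢ`
  in `L`. Then `2 (D - 1) h(α) ≥ ∑_{p ∈ S} (log p / (2 e_p)) (D / (2 q_p ^ n) - 1) - log D - 1 / 2`,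
  and for `n = 2` the sum may be replaced by `∑_{p ∈ S} (log p / e_p) (D / (q_p + 1) - 1)`. Every
  element of the compositum `F L` is such a quotient for some `n`.

* (4) **Rémond's inequality for large degrees, for all subgroups `Γ` of `ℂ*` at once**: in case (2)
  with `F = ℚ(Γ_div)` there are `c > 0` and `D₀`, depending on `ρ` only, such that `h(α) ≥ c` if
  `D_Γ(α) ≥ D₀`; in case (3) with `F = ℚ(Γ_div)` and `S = {p}`, `h(α) ≥ log p / (16 e q ^ n)` if
  `q ^ n log D ≤ (log p / (8 (2 e + log p))) D`, `D = D_Γ(α) ≥ 2`.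

* (5) **No condition on the degree**: let `K` be a number field, `Γ` a finitely generated group of
  nonzero algebraic numbers, `P` a finite set of primes and `F₁` the field generated over `K` by all
  roots of unity and all `m`-th roots of the elements of `Γ`, `m` a product of primes of `P`. There
  is `c > 0`, depending only on `K`, `Γ`, `P` and `ρ`, such that `h(α) ≥ c` for all `α = a β + b`,
  `α ≠ 0`, with `a` and `b` in `F₁` and `β` as in (2), which do not lie in the division group of `Γ`.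
  There is `B ≥ 1`, depending only on `K`, `Γ`, `P`, `p`, `q` and `e`, such that
  `h(α) ≥ B ^ (-n)` for all `α ≠ 0` as in (3) with `F = F₁` and `S = {p}` which do not lie in the
  division group of `Γ`. (For small degrees over `F₁` this uses the theorem of
  `Pool/Agent/Results/MP_f61260_nt/SmoothRootsPoly.lean`.)

Method: the product of the differences of the conjugates of `α` over `F` is a nonzero element of
`NC α`; its product formula bounds the mean over the embeddings of the logarithmic energy of the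
images of the conjugates, plus the energies at the primes, by `2 h(α)`. The archimedean energy
bounds the power sums, and Fejér's kernel bounds the number of points in short arcs by the power
sums. At a prime above `p` the conjugates of `α` over `F` are the images of points of the projective
space of dimension `n - 1` over a field of `p`-adic numbers with residue field of at most `q`
elements under a projection to the projective line over a large field. A projection gives only a
bounded number of residue classes, which bounds the energy from below; for `n = 2` the energy is a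
convex function on the tree of the small field, and it is minimal at a vertex.
-/

set_option autoImplicit false

open Polynomial

namespace Pool.Agent.Results.MP_f61260_nt.RelativeEquidistribution

/-- The field generated by all conjugates of `α` over `ℚ`. -/
noncomputable abbrev NC (α : ℂ) : IntermediateField ℚ ℂ :=
  IntermediateField.adjoin ℚ ((minpoly ℚ α).rootSet ℂ)

/-- The embeddings of `NC α` in `ℂ`. -/
abbrev Emb (α : ℂ) : Type := NC α →+* ℂ

/-- The conjugates of `α` over `F`, as elements of `NC α`. -/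
abbrev Conj (F : IntermediateField ℚ ℂ) (α : ℂ) : Type :=
  {z : NC α // aeval (z : ℂ) (minpoly F α) = 0}

/-- The degree of `α` over `F`. -/
noncomputable def deg (F : IntermediateField ℚ ℂ) (α : ℂ) : ℕ := (minpoly F α).natDegree

/-- The arithmetic mean of a function on a finite nonempty type. -/
noncomputable def mean {ι E : Type} [AddCommGroup E] [Module ℝ E] (f : ι → E) : E :=
  (Nat.card ι : ℝ)⁻¹ • ∑ᶠ i, f i

/-- `h` is the absolute logarithmic height of `α`: the logarithm of the Mahler measure of the minimal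
polynomial over `ℤ` divided by its degree. -/
def IsHeight (α : ℂ) (h : ℝ) : Prop :=
  ∃ f : ℤ[X], Irreducible f ∧ aeval α f = 0 ∧
    h = Real.log ((f.map (Int.castRingHom ℂ)).mahlerMeasure) / f.natDegree

/-- The error term `(log D + 1 / 2) / D`. -/
noncomputable def err (D : ℕ) : ℝ := (Real.log D + 1 / 2) / D

/-- `β` is algebraic and at least `ρ [ℚ(β) : ℚ]` of its conjugates over `ℚ` are real. -/
def ManyReal (β : ℂ) (ρ : ℝ) : Prop :=
  IsAlgebraic ℚ β ∧ ρ * (minpoly ℚ β).natDegree ≤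
    ({z : ℂ | aeval z (minpoly ℚ β) = 0 ∧ z.im = 0}.ncard : ℕ)

/-- Every prime of `L` above `p` has norm at most `q` and ramification index at most `e`. -/
def LocalType (L : IntermediateField ℚ ℂ) (p q e : ℕ) : Prop :=
  ∀ P : Ideal (NumberField.RingOfIntegers L), P.IsMaximal →
    (p : NumberField.RingOfIntegers L) ∈ P →
      Nat.card (NumberField.RingOfIntegers L ⧸ P) ≤ q ∧
        (p : NumberField.RingOfIntegers L) ∉ P ^ (e + 1)

/-- `α` is a quotient of two linear combinations of the same `n` elements of `L` with coefficients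
in `F`. -/
def LinearQuotient (F L : IntermediateField ℚ ℂ) (n : ℕ) (α : ℂ) : Prop :=
  ∃ a b γ : Fin n → ℂ, (∀ k, a k ∈ F ∧ b k ∈ F ∧ γ k ∈ L) ∧ ∑ k, b k * γ k ≠ 0 ∧
    α = (∑ k, a k * γ k) / ∑ k, b k * γ k

/-- The field `ℚ(Γ_div)`. -/
noncomputable def divField (Γ : Subgroup ℂˣ) : IntermediateField ℚ ℂ :=
  IntermediateField.adjoin ℚ {z : ℂ | z ≠ 0 ∧ ∃ n : ℕ, 1 ≤ n ∧ ∃ g ∈ Γ, (g : ℂ) = z ^ n}

/-- A positive power of `α` lies in `Γ`. -/
def InDivisionGroup (Γ : Subgroup ℂˣ) (α : ℂ) : Prop :=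
  ∃ n : ℕ, 0 < n ∧ ∃ g ∈ Γ, α ^ n = (g : ℂ)

/-- The field generated over `K` by all roots of unity and by all `n`-th roots of all elements of
`Γ`, for all positive integers `n` all of whose prime factors belong to `P`. -/
noncomputable def smoothField (K : IntermediateField ℚ ℂ) (Γ : Subgroup ℂˣ) (P : Finset ℕ) :
    IntermediateField ℚ ℂ :=
  K ⊔ IntermediateField.adjoin ℚ ({y : ℂ | ∃ n : ℕ, 0 < n ∧ y ^ n = 1} ∪
    {y : ℂ | ∃ n : ℕ, (0 < n ∧ ∀ q : ℕ, q.Prime → q ∣ n → q ∈ P) ∧ ∃ g ∈ Γ, y ^ n = (g : ℂ)})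

lemma equi (g : ℂ → ℂ) (hg : Continuous g) (hM : ∃ M : ℝ, ∀ z, ‖g z‖ ≤ M) (ε : ℝ) (hε : 0 < ε) :
    ∃ θ : ℝ, 0 < θ ∧ ∃ D₀ : ℕ, ∀ (F : IntermediateField ℚ ℂ) (α : ℂ) (h : ℝ), α ≠ 0 →
      IsAlgebraic ℚ α → IsHeight α h → h ≤ θ → D₀ ≤ deg F α →
      mean (fun σ : Emb α =>
        ‖mean (fun z : Conj F α => g (σ z.1)) - Real.circleAverage g 0 1‖) ≤ ε := by
  obtain ⟨M, hM⟩ := hM
  have h1 := Metric.tendsto_nhds.1 (Pool.Agent.W5h24.RE.equi g hg M hM) ε hε
  rw [Pool.Agent.W5h24.RE.LF, Filter.eventually_inf] at h1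
  obtain ⟨s, hs, t, ht, hst⟩ := h1
  rw [Filter.mem_comap] at hs ht
  obtain ⟨s', hs', hss⟩ := hs
  obtain ⟨t', ht', htt⟩ := ht
  obtain ⟨θ, hθ, hθs⟩ := Metric.mem_nhds_iff.1 hs'
  obtain ⟨D₀, hD₀⟩ := Filter.mem_atTop_sets.1 ht'
  refine ⟨θ / 2, by positivity, D₀, fun F α h h0 hα hh hle hD => ?_⟩
  have hh0 := Pool.Agent.W5h24.RE.height_nonneg α hα h hh
  have h2 := hst ⟨F, α, h, h0, hα, hh⟩ ⟨hss (by
    apply hθs
    rw [Metric.mem_ball, dist_zero_right, Real.norm_of_nonneg hh0]
    show h < θ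
    linarith), htt (hD₀ _ hD)⟩
  rw [dist_zero_right, Real.norm_of_nonneg (Pool.Agent.W5h24.RE.Phi_nonneg _ _ _)] at h2
  exact h2.le

lemma small_err (x : ℝ) (hx : 0 < x) : ∃ D₀ : ℕ, 2 ≤ D₀ ∧ ∀ D, D₀ ≤ D → err D ≤ x := by
  have h1 := (Pool.Agent.W5h24.RE.tendsto_err).eventually (ge_mem_nhds hx)
  obtain ⟨D₁, h2⟩ := Filter.eventually_atTop.1 h1
  exact ⟨max 2 D₁, le_max_left _ _, fun D hD => h2 D ((le_max_right _ _).trans hD)⟩

lemma compositum (F L : IntermediateField ℚ ℂ) [FiniteDimensional ℚ L] {α : ℂ}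
    (hα : α ∈ F ⊔ L) : ∃ n, LinearQuotient F L n α := by
  have h1 : α ∈ IntermediateField.adjoin F (L : Set ℂ) := by
    have h2 := IntermediateField.restrictScalars_adjoin_eq_sup ℚ F (L : Set ℂ)
    rw [IntermediateField.adjoin_self] at h2
    rw [← h2] at hα
    exact hα
  have h2 : α ∈ Algebra.adjoin F (L : Set ℂ) := by
    have h3 := IntermediateField.adjoin_intermediateField_toSubalgebra_of_isAlgebraic_right
      (F := ℚ) F L
    rw [← h3]
    exact h1
  have h3 : α ∈ Submodule.span F (L : Set ℂ) := by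
    have h4 := Subalgebra.adjoin_eq_span_of_eq_span (F := ℚ) F L.toSubalgebra
      (S := (L : Set ℂ)) (Submodule.span_eq (Subalgebra.toSubmodule L.toSubalgebra)).symm
    rw [← h4]
    exact h2
  obtain ⟨n, f, g, hfg⟩ := Submodule.mem_span_set'.1 h3
  refine ⟨n + 1, Fin.cons 0 fun k => (f k : ℂ), Fin.cons 1 fun _ => 0,
    Fin.cons 1 fun k => (g k : ℂ), ?_, ?_, ?_⟩
  · intro k
    refine Fin.cases ?_ (fun k => ?_) k
    · simp only [Fin.cons_zero]
      exact ⟨zero_mem _, one_mem _, one_mem _⟩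
    · simp only [Fin.cons_succ]
      exact ⟨(f k).2, zero_mem _, (g k).2⟩
  · rw [Fin.sum_univ_succ]
    simp
  · rw [Fin.sum_univ_succ, Fin.sum_univ_succ]
    simp only [Fin.cons_zero, Fin.cons_succ, mul_one, zero_mul, zero_add, Finset.sum_const_zero,
      add_zero, div_one]
    rw [← hfg]
    rfl

lemma local_bound {D : ℕ} (hD : 2 ≤ D) {n p q e : ℕ} (hp : p.Prime) (hq : 1 ≤ q) (he : 1 ≤ e)
    {h : ℝ} (h1 : Real.log p / (2 * e) * ((D : ℝ) / (2 * q ^ n) - 1) - Real.log D - 1 / 2 ≤
      2 * (D - 1) * h)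
    (h2 : q ^ n * Real.log D ≤ Real.log p / (8 * (2 * e + Real.log p)) * D) :
    Real.log p / (16 * e * q ^ n) ≤ h := by
  have hDr : (2 : ℝ) ≤ D := by exact_mod_cast hD
  have hqr : (0 : ℝ) < (q : ℝ) ^ n := by
    have : (0 : ℝ) < q := by exact_mod_cast hq
    positivity
  have her : (0 : ℝ) < e := by exact_mod_cast he
  have hlp : 0 < Real.log p := Real.log_pos (by exact_mod_cast hp.one_lt)
  have hlog2 : (1 : ℝ) / 2 ≤ Real.log D := by
    have := Real.log_le_log (by norm_num) hDr
    linarith [Real.log_two_gt_d9]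
  set X : ℝ := (D : ℝ) / q ^ n with hX
  have hX0 : 0 < X := by positivity
  have hDX : (D : ℝ) = X * q ^ n := by
    rw [hX, div_mul_cancel₀ _ hqr.ne']
  set κ : ℝ := Real.log p / (8 * (2 * e + Real.log p)) with hκ
  have h3 : Real.log D ≤ κ * X := by
    have h4 : (q : ℝ) ^ n * Real.log D ≤ q ^ n * (κ * X) := by
      refine h2.trans (le_of_eq ?_)
      rw [hDX]
      ring
    exact le_of_mul_le_mul_left h4 hqr
  have h4 : Real.log D + 1 / 2 + Real.log p / (2 * e) ≤ X * (Real.log p / (8 * e)) := by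
    have h5 : 1 ≤ 2 * (κ * X) := by linarith
    have h6 : Real.log D + 1 / 2 + Real.log p / (2 * e) ≤
        κ * X + (1 / 2 + Real.log p / (2 * e)) * (2 * (κ * X)) := by
      have h7 : (0 : ℝ) ≤ 1 / 2 + Real.log p / (2 * e) := by positivity
      nlinarith
    refine h6.trans (le_of_eq ?_)
    rw [hκ]
    field_simp
    ring
  have h5 : X * (Real.log p / (8 * e)) ≤ 2 * (D - 1) * h := by
    have h6 : Real.log p / (2 * e) * ((D : ℝ) / (2 * q ^ n) - 1) =
        X * (Real.log p / (4 * e)) - Real.log p / (2 * e) := by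
      rw [hX]
      field_simp
      ring
    have h7 : X * (Real.log p / (4 * e)) = X * (Real.log p / (8 * e)) +
        X * (Real.log p / (8 * e)) := by
      field_simp
      ring
    rw [h6, h7] at h1
    linarith
  have h6 : X * (Real.log p / (8 * e)) = 2 * D * (Real.log p / (16 * e * q ^ n)) := by
    rw [hX]
    field_simp
    ring
  rw [h6] at h5
  have h7 : 0 < Real.log p / (16 * e * q ^ n) := by positivity
  have h8 : 0 < 2 * ((D : ℝ) - 1) := by linarith
  have h9 : 2 * ((D : ℝ) - 1) * (Real.log p / (16 * e * q ^ n)) ≤ 2 * (D - 1) * h := by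
    refine le_trans ?_ h5
    gcongr
    linarith
  exact le_of_mul_le_mul_left h9 h8

lemma large_base {n p q e A D : ℕ} (hn : n ≠ 0) (hp : p.Prime) (hq : 1 ≤ q) (he : 1 ≤ e)
    (hA : 0 < A) (hD1 : 1 ≤ D) {h : ℝ}
    (h1 : 2 ≤ D → q ^ n * Real.log D ≤ Real.log p / (8 * (2 * e + Real.log p)) * D →
      Real.log p / (16 * e * q ^ n) ≤ h)
    (h2 : 1 / ((A : ℝ) * (D : ℝ) ^ A) ≤ h) :
    1 / (max (16 * e / Real.log p) 1 * q +
      A * (4 / (Real.log p / (8 * (2 * e + Real.log p))) ^ 2) ^ A * (q ^ 2) ^ A) ^ n ≤ h := by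
  have hqr : (1 : ℝ) ≤ q := by exact_mod_cast hq
  have her : (1 : ℝ) ≤ e := by exact_mod_cast he
  have hAr : (1 : ℝ) ≤ A := by exact_mod_cast hA
  have hDr : (1 : ℝ) ≤ D := by exact_mod_cast hD1
  have hlp : 0 < Real.log p := Real.log_pos (by exact_mod_cast hp.one_lt)
  set κ : ℝ := Real.log p / (8 * (2 * e + Real.log p)) with hκ
  have hκ0 : 0 < κ := by positivity
  have hκ1 : κ ≤ 1 := by
    rw [hκ, div_le_one (by positivity)]
    linarith
  set b₁ : ℝ := max (16 * e / Real.log p) 1 * q with hb₁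
  set b₂ : ℝ := A * (4 / κ ^ 2) ^ A * (q ^ 2) ^ A with hb₂
  have hb₁0 : 0 < b₁ := by
    have : (0 : ℝ) < max (16 * e / Real.log p) 1 := lt_of_lt_of_le one_pos (le_max_right _ _)
    positivity
  have hb₂0 : 0 < b₂ := by positivity
  by_cases hc : 2 ≤ D ∧ q ^ n * Real.log D ≤ κ * D
  · refine le_trans ?_ (h1 hc.1 hc.2)
    rw [div_le_div_iff₀ (by positivity) (by positivity), one_mul]
    have h3 : (16 * e / Real.log p) * (q : ℝ) ^ n ≤ (b₁ + b₂) ^ n := by
      calc (16 * e / Real.log p) * (q : ℝ) ^ n ≤ (max (16 * e / Real.log p) 1) ^ n * q ^ n := by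
            gcongr
            exact (le_max_left _ _).trans (le_self_pow₀ (le_max_right _ _) hn)
        _ = b₁ ^ n := by rw [hb₁, mul_pow]
        _ ≤ (b₁ + b₂) ^ n := by
            gcongr
            linarith
    have h4 : 16 * e * (q : ℝ) ^ n = Real.log p * ((16 * e / Real.log p) * q ^ n) := by
      field_simp
    rw [h4]
    gcongr
  · have hDle : (D : ℝ) ≤ 4 / κ ^ 2 * (q ^ 2) ^ n := by
      have hqn : (1 : ℝ) ≤ (q ^ 2) ^ n := one_le_pow₀ (one_le_pow₀ hqr)
      rcases Nat.lt_or_ge D 2 with hD2 | hD2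
      · have h3 : (D : ℝ) ≤ 1 := by exact_mod_cast (by omega : D ≤ 1)
        have h4 : (1 : ℝ) ≤ 4 / κ ^ 2 := by
          rw [le_div_iff₀ (by positivity)]
          nlinarith
        nlinarith
      · have h3 : κ * D < q ^ n * Real.log D := by
          by_contra hcon
          exact hc ⟨hD2, not_lt.1 hcon⟩
        have hs0 : 0 < Real.sqrt D := Real.sqrt_pos.2 (by linarith)
        have hss : Real.sqrt D * Real.sqrt D = D := Real.mul_self_sqrt (by linarith)
        have h4 : Real.log D ≤ 2 * Real.sqrt D := by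
          have h5 := Real.log_le_sub_one_of_pos hs0
          rw [Real.log_sqrt (by linarith)] at h5
          linarith
        have hqn0 : (0 : ℝ) < (q : ℝ) ^ n := by positivity
        have h5 : κ * Real.sqrt D ≤ 2 * q ^ n := by
          have h6 : (κ * Real.sqrt D) * Real.sqrt D ≤ (2 * q ^ n) * Real.sqrt D := by
            calc (κ * Real.sqrt D) * Real.sqrt D = κ * D := by rw [mul_assoc, hss]
              _ ≤ q ^ n * Real.log D := h3.le
              _ ≤ q ^ n * (2 * Real.sqrt D) := by gcongr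
              _ = _ := by ring
          exact le_of_mul_le_mul_right h6 hs0
        have h6 : κ ^ 2 * D ≤ 4 * (q ^ 2) ^ n := by
          have h7 : (κ * Real.sqrt D) ^ 2 ≤ (2 * q ^ n) ^ 2 :=
            pow_le_pow_left₀ (by positivity) h5 2
          have h8 : (κ * Real.sqrt D) ^ 2 = κ ^ 2 * D := by
            rw [mul_pow, sq (Real.sqrt D), hss]
          have h9 : (2 * (q : ℝ) ^ n) ^ 2 = 4 * (q ^ 2) ^ n := by
            rw [mul_pow, ← pow_mul, ← pow_mul, mul_comm n 2]
            norm_num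
          rw [h8, h9] at h7
          exact h7
        rw [div_mul_eq_mul_div, le_div_iff₀ (by positivity)]
        linarith
    refine le_trans ?_ h2
    apply one_div_le_one_div_of_le (by positivity)
    have hbase : (1 : ℝ) ≤ A * (4 / κ ^ 2) ^ A := by
      have h4 : (1 : ℝ) ≤ 4 / κ ^ 2 := by
        rw [le_div_iff₀ (by positivity)]
        nlinarith
      exact one_le_mul_of_one_le_of_one_le hAr (one_le_pow₀ h4)
    calc (A : ℝ) * (D : ℝ) ^ A ≤ A * (4 / κ ^ 2 * (q ^ 2) ^ n) ^ A := by gcongr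
      _ = (A * (4 / κ ^ 2) ^ A) * ((q ^ 2) ^ A) ^ n := by
          rw [mul_pow, ← pow_mul, ← pow_mul, mul_comm n A]
          ring
      _ ≤ (A * (4 / κ ^ 2) ^ A) ^ n * ((q ^ 2) ^ A) ^ n := by
          gcongr
          exact le_self_pow₀ hbase hn
      _ = b₂ ^ n := (mul_pow _ _ n).symm
      _ ≤ (b₁ + b₂) ^ n := by
          gcongr
          linarith

/-- **Equidistribution and heights relative to an arbitrary field, and Rémond's inequality.** -/
theorem result :
    -- the embeddings and the conjugates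
    (∀ (F : IntermediateField ℚ ℂ) (α : ℂ), IsAlgebraic ℚ α →
      Finite (Emb α) ∧ Nonempty (Emb α) ∧ Nat.card (Conj F α) = deg F α) ∧
    -- (1) relative equidistribution
    (∀ g : ℂ → ℂ, Continuous g → (∃ M : ℝ, ∀ z, ‖g z‖ ≤ M) → ∀ ε : ℝ, 0 < ε →
      ∃ θ : ℝ, 0 < θ ∧ ∃ D₀ : ℕ, ∀ (F : IntermediateField ℚ ℂ) (α : ℂ) (h : ℝ), α ≠ 0 →
        IsAlgebraic ℚ α → IsHeight α h → h ≤ θ → D₀ ≤ deg F α →
        mean (fun σ : Emb α =>
          ‖mean (fun z : Conj F α => g (σ z.1)) - Real.circleAverage g 0 1‖) ≤ ε) ∧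
    -- the explicit form
    (∀ (F : IntermediateField ℚ ℂ) (α : ℂ) (h : ℝ), α ≠ 0 → IsAlgebraic ℚ α → IsHeight α h →
      (∀ k : ℕ, 1 ≤ k → 2 ≤ deg F α → k ≤ deg F α →
        mean (fun σ : Emb α => ‖mean (fun z : Conj F α => (σ z.1 / ‖σ z.1‖) ^ k)‖ ^ 2) ≤
          4 * k * (3 * h + err (deg F α))) ∧
      mean (fun σ : Emb α => mean (fun z : Conj F α => |Real.log ‖σ z.1‖|)) ≤ 2 * h) ∧
    -- (2) affine images of numbers with many real conjugates
    (∀ (F : IntermediateField ℚ ℂ) (a b β : ℂ) (ρ h : ℝ), a ∈ F → b ∈ F → a ≠ 0 → 0 < ρ →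
      ρ ≤ 1 → ManyReal β ρ → IsAlgebraic ℚ (a * β + b) → IsHeight (a * β + b) h →
      2 ≤ deg F (a * β + b) → ρ ^ 3 / 130000 - 1 / 3 * err (deg F (a * β + b)) ≤ h) ∧
    -- (3) quotients of linear combinations of numbers of bounded local types
    (∀ (F L : IntermediateField ℚ ℂ) (n : ℕ) (α : ℂ) (h : ℝ) (S : Finset ℕ) (q e : ℕ → ℕ),
      FiniteDimensional ℚ L → Normal ℚ L →
      (∀ p ∈ S, p.Prime ∧ 1 ≤ e p ∧ LocalType L p (q p) (e p)) → LinearQuotient F L n α →
      IsAlgebraic ℚ α → IsHeight α h →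
      ∑ p ∈ S, Real.log p / (2 * e p) * ((deg F α : ℝ) / (2 * q p ^ n) - 1) -
        Real.log (deg F α) - 1 / 2 ≤ 2 * ((deg F α : ℝ) - 1) * h ∧
      (n = 2 → ∑ p ∈ S, Real.log p / e p * ((deg F α : ℝ) / (q p + 1) - 1) -
        Real.log (deg F α) - 1 / 2 ≤ 2 * ((deg F α : ℝ) - 1) * h)) ∧
    -- the compositum
    (∀ F L : IntermediateField ℚ ℂ, FiniteDimensional ℚ L → ∀ α ∈ F ⊔ L,
      ∃ n, LinearQuotient F L n α) ∧
    -- (4) Rémond's inequality for large degrees: many real conjugates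
    (∀ ρ : ℝ, 0 < ρ → ρ ≤ 1 → ∃ c : ℝ, 0 < c ∧ ∃ D₀ : ℕ, ∀ (Γ : Subgroup ℂˣ) (a b β : ℂ) (h : ℝ),
      a ∈ divField Γ → b ∈ divField Γ → a ≠ 0 → ManyReal β ρ → IsAlgebraic ℚ (a * β + b) →
      IsHeight (a * β + b) h → D₀ ≤ deg (divField Γ) (a * β + b) → c ≤ h) ∧
    -- Rémond's inequality for large degrees: bounded local type
    (∀ (Γ : Subgroup ℂˣ) (L : IntermediateField ℚ ℂ) (n p q e : ℕ) (α : ℂ) (h : ℝ),
      FiniteDimensional ℚ L → Normal ℚ L → p.Prime → 1 ≤ q → 1 ≤ e → LocalType L p q e →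
      LinearQuotient (divField Γ) L n α → IsAlgebraic ℚ α → IsHeight α h →
      2 ≤ deg (divField Γ) α → q ^ n * Real.log (deg (divField Γ) α) ≤
        Real.log p / (8 * (2 * e + Real.log p)) * deg (divField Γ) α →
      Real.log p / (16 * e * q ^ n) ≤ h) ∧
    -- (5) the fields of smooth roots, all degrees
    (∀ (K : IntermediateField ℚ ℂ) (Γ : Subgroup ℂˣ) (P : Finset ℕ), FiniteDimensional ℚ K →
      Γ.FG → (∀ g ∈ Γ, IsAlgebraic ℚ (g : ℂ)) → (∀ p ∈ P, p.Prime) →
      (∀ ρ : ℝ, 0 < ρ → ρ ≤ 1 → ∃ c : ℝ, 0 < c ∧ ∀ (a b β : ℂ) (h : ℝ),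
        a ∈ smoothField K Γ P → b ∈ smoothField K Γ P → ManyReal β ρ →
        IsAlgebraic ℚ (a * β + b) → IsHeight (a * β + b) h → a * β + b ≠ 0 →
        ¬ InDivisionGroup Γ (a * β + b) → c ≤ h) ∧
      (∀ p q e : ℕ, p.Prime → 1 ≤ q → 1 ≤ e → ∃ B : ℝ, 1 ≤ B ∧
        ∀ (L : IntermediateField ℚ ℂ) (n : ℕ) (α : ℂ) (h : ℝ), FiniteDimensional ℚ L →
        Normal ℚ L → LocalType L p q e → LinearQuotient (smoothField K Γ P) L n α →
        IsAlgebraic ℚ α → IsHeight α h → α ≠ 0 → ¬ InDivisionGroup Γ α → 1 / B ^ n ≤ h)) := by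
  have hpad : ∀ (F L : IntermediateField ℚ ℂ) (n : ℕ) (α : ℂ) (h : ℝ) (S : Finset ℕ)
      (q e : ℕ → ℕ), FiniteDimensional ℚ L → Normal ℚ L →
      (∀ p ∈ S, p.Prime ∧ 1 ≤ e p ∧ LocalType L p (q p) (e p)) → LinearQuotient F L n α →
      IsAlgebraic ℚ α → IsHeight α h →
      ∑ p ∈ S, Real.log p / (2 * e p) * ((deg F α : ℝ) / (2 * q p ^ n) - 1) -
        Real.log (deg F α) - 1 / 2 ≤ 2 * ((deg F α : ℝ) - 1) * h ∧
      (n = 2 → ∑ p ∈ S, Real.log p / e p * ((deg F α : ℝ) / (q p + 1) - 1) -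
        Real.log (deg F α) - 1 / 2 ≤ 2 * ((deg F α : ℝ) - 1) * h) := by
    intro F L n α h S q e hfd hno hS hq hα hh
    obtain ⟨a, b, γ, hmem, hden, hαeq⟩ := hq
    exact Pool.Agent.W5h24.RE.general F L a b γ (fun k => (hmem k).1) (fun k => (hmem k).2.1)
      (fun k => (hmem k).2.2) hden α hαeq S q e hS hα h hh rfl
  have hone : ∀ (F L : IntermediateField ℚ ℂ) (n p q e : ℕ) (α : ℂ) (h : ℝ),
      FiniteDimensional ℚ L → Normal ℚ L → p.Prime → 1 ≤ q → 1 ≤ e → LocalType L p q e →
      LinearQuotient F L n α → IsAlgebraic ℚ α → IsHeight α h →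
      2 ≤ deg F α → q ^ n * Real.log (deg F α) ≤
        Real.log p / (8 * (2 * e + Real.log p)) * deg F α →
      Real.log p / (16 * e * q ^ n) ≤ h := by
    intro F L n p q e α h hfd hno hp hq he hloc hquot hα hh hD hle
    have h1 := (hpad F L n α h {p} (fun _ => q) (fun _ => e) hfd hno (by
      intro p' hp'
      rw [Finset.mem_singleton] at hp'
      subst hp'
      exact ⟨hp, he, hloc⟩) hquot hα hh).1
    rw [Finset.sum_singleton] at h1
    exact local_bound hD hp hq he h1 hle
  refine ⟨fun F α hα => ?_, equi, fun F α h h0 hα hh => ⟨?_, ?_⟩, ?_, hpad,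
    fun F L _ α hα => compositum F L hα, ?_, ?_, ?_⟩
  · have := Pool.Agent.W5h24.RE.nf hα
    exact ⟨inferInstance, inferInstance, Pool.Agent.W5h24.RE.card_conj hα⟩
  · intro k hk1 hD hk
    exact Pool.Agent.W5h24.RE.mean_power F α h0 hα h hh hD k hk1 hk
  · exact Pool.Agent.W5h24.RE.mean_log F α h0 hα h hh
  · intro F a b β ρ h ha hb ha0 hρ hρ1 hβ hα hh hD
    exact Pool.Agent.W5h24.RE.affine_real F a b β ha hb ha0 hρ hρ1 hβ hα h hh hD
  · intro ρ hρ hρ1
    obtain ⟨D₀, hD₀, herr⟩ := small_err (ρ ^ 3 / 130000) (by positivity)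
    refine ⟨2 / 3 * (ρ ^ 3 / 130000), by positivity, D₀, ?_⟩
    intro Γ a b β h ha hb ha0 hβ hα hh hD
    have h1 := Pool.Agent.W5h24.RE.affine_real (divField Γ) a b β ha hb ha0 hρ hρ1 hβ hα h hh
      (hD₀.trans hD)
    have h2 := herr _ hD
    have h3 : Pool.Agent.W5h24.RE.err (minpoly (divField Γ) (a * β + b)).natDegree =
      err (deg (divField Γ) (a * β + b)) := rfl
    rw [h3] at h1
    linarith
  · intro Γ L n p q e α h hfd hno hp hq he hloc hquot hα hh hD hle
    exact hone (divField Γ) L n p q e α h hfd hno hp hq he hloc hquot hα hh hD hle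
  · intro K Γ P hK hFG halg hP
    obtain ⟨A, hA, hmain⟩ := Pool.Agent.W5h24.RE.smooth_lower K Γ hFG halg P hP
    have hmain' : ∀ α : ℂ, α ≠ 0 → IsAlgebraic ℚ α → ¬ InDivisionGroup Γ α → ∀ h : ℝ,
        IsHeight α h → 1 / ((A : ℝ) * (deg (smoothField K Γ P) α : ℝ) ^ A) ≤ h := hmain
    have hdeg : ∀ α : ℂ, IsAlgebraic ℚ α → 1 ≤ deg (smoothField K Γ P) α := fun α hα =>
      minpoly.natDegree_pos hα.isIntegral.tower_top
    refine ⟨fun ρ hρ hρ1 => ?_, fun p q e hp hq he => ?_⟩
    · obtain ⟨D₀, hD₀, herr⟩ := small_err (ρ ^ 3 / 130000) (by positivity)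
      have hAr : (0 : ℝ) < A := by exact_mod_cast hA
      have hD₀r : (0 : ℝ) < D₀ := by exact_mod_cast (by omega : 0 < D₀)
      refine ⟨min (2 / 3 * (ρ ^ 3 / 130000)) (1 / ((A : ℝ) * (D₀ : ℝ) ^ A)), by positivity, ?_⟩
      intro a b β h ha hb hβ hα hh hne hnd
      rcases Nat.lt_or_ge (deg (smoothField K Γ P) (a * β + b)) D₀ with hlt | hge
      · refine (min_le_right _ _).trans (le_trans ?_ (hmain' _ hne hα hnd h hh))
        have h1 : (deg (smoothField K Γ P) (a * β + b) : ℝ) ≤ D₀ := by exact_mod_cast hlt.le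
        have h2 : (0 : ℝ) < deg (smoothField K Γ P) (a * β + b) := by
          exact_mod_cast hdeg _ hα
        gcongr
      · have ha0 : a ≠ 0 := by
          rintro rfl
          have h1 : deg (smoothField K Γ P) (0 * β + b) = 1 := by
            rw [zero_mul, zero_add]
            have h2 := minpoly.eq_X_sub_C ℂ (⟨b, hb⟩ : smoothField K Γ P)
            unfold deg
            rw [show minpoly (smoothField K Γ P) b = _ from h2, natDegree_X_sub_C]
          omega
        have h1 := Pool.Agent.W5h24.RE.affine_real (smoothField K Γ P) a b β ha hb ha0 hρ hρ1 hβ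
          hα h hh (hD₀.trans hge)
        have h2 := herr _ hge
        have h3 : Pool.Agent.W5h24.RE.err (minpoly (smoothField K Γ P) (a * β + b)).natDegree =
          err (deg (smoothField K Γ P) (a * β + b)) := rfl
        rw [h3] at h1
        refine (min_le_left _ _).trans ?_
        linarith
    · have hlp : 0 < Real.log p := Real.log_pos (by exact_mod_cast hp.one_lt)
      refine ⟨max (16 * e / Real.log p) 1 * q +
        A * (4 / (Real.log p / (8 * (2 * e + Real.log p))) ^ 2) ^ A * (q ^ 2) ^ A, ?_, ?_⟩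
      · have hqr : (1 : ℝ) ≤ q := by exact_mod_cast hq
        have h1 : (1 : ℝ) ≤ max (16 * e / Real.log p) 1 * q :=
          one_le_mul_of_one_le_of_one_le (le_max_right _ _) hqr
        have h2 : (0 : ℝ) ≤ A * (4 / (Real.log p / (8 * (2 * e + Real.log p))) ^ 2) ^ A *
            (q ^ 2) ^ A := by positivity
        linarith
      · intro L n α h hfd hno hloc hquot hα hh hne hnd
        have hn : n ≠ 0 := by
          rintro rfl
          obtain ⟨a, b, γ, _, hden, _⟩ := hquot
          exact hden (by simp)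
        exact large_base hn hp hq he hA (hdeg α hα)
          (hone (smoothField K Γ P) L n p q e α h hfd hno hp hq he hloc hquot hα hh)
          (hmain' α hne hα hnd h hh)

end Pool.Agent.Results.MP_f61260_nt.RelativeEquidistribution
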