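import Mathlib
import Pool.Agent.W5h36.RS.Main

/-!
# A theorem of Smyth and Schinzel relative to an arbitrary field, and Rémond's inequality

Let `F` be any field of complex numbers, for instance `F = ℚ(Γ_div)` for a subgroup `Γ` of `ℂ*`, let
`α` be a nonzero algebraic number and let `f = X ^ D + a_{D-1} X ^ (D-1) + … + a_0` be the minimal
polynomial of `α` over `F` (so `D = D_Γ(α)` for `F = ℚ(Γ_div)`). Let `K` be a totally real algebraic
field or a totally complex quadratic extension of such a field, of finite or infinite degree over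
`ℚ`, for instance `ℚ` or the field `ℚ(μ_∞)` generated by all roots of unity.

If the coefficients `a_{D-1}, …, a_{D-m+1}` lie in `K`, if `a_{D-m}` or `a_m / a_0` lies in `K`
(`1 ≤ m ≤ D`), and if `a_m` is not equal to `a_0` times the complex conjugate of `a_{D-m}`, then
`D h(α) ≥ (1 / 2) log ((1 + √5) / 2)`.

So Rémond's inequality holds, with an absolute constant and for all subgroups `Γ`, for all these
`α`: only the first coefficients of `f` have to lie in `K`, the others are arbitrary elements of `F`.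
For instance it holds whenever the first nonzero coefficients of `f` after the leading one and
before the constant one, `a_{D-k}` and `a_l`, stand at different distances `k ≠ l` from the ends (all
trinomials `X ^ D + a X ^ k + b` with `D ≠ 2 k`), and whenever the relative trace of `α` lies in
`ℚ(μ_∞)` and the relative trace of `1 / α` is not its complex conjugate. The number `2 ^ (1 / n)`,
with `D = 1`, shows that the condition on `K` cannot be dropped.

Method: for every embedding `σ` of the Galois closure, the difference of the two sides at the first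
index `m` where `f` is not self-inversive is bounded by `M² - β² / M²`, where `M` is the Mahler
measure of `σ f` and `β = |σ a_0|` (Schwarz-Pick for the Blaschke products of `σ f`); since the
coefficients up to that index lie in `K`, all these differences are the conjugates of one algebraic
number, whose absolute values at the finite places are bounded by the heights, and the product
formula applies.
-/

set_option autoImplicit false

open Polynomial

namespace Pool.Agent.Results.MP_f61260_nt.RelativeSmyth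

/-- `K` is algebraic over `ℚ`, complex conjugation maps `K` to itself and commutes with every
embedding of `K` in the complex numbers: `K` is totally real or a totally complex quadratic extension
of a totally real field. -/
def Kroneckerian (K : IntermediateField ℚ ℂ) : Prop :=
  Algebra.IsAlgebraic ℚ K ∧
    ∀ x : K, ∃ y : K, (y : ℂ) = (starRingEnd ℂ) x ∧
      ∀ σ : K →+* ℂ, σ y = (starRingEnd ℂ) (σ x)

/-- The degree of `α` over `F`. -/
noncomputable def deg (F : IntermediateField ℚ ℂ) (α : ℂ) : ℕ := (minpoly F α).natDegree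

/-- The coefficient of `X ^ i` in the minimal polynomial of `α` over `F`. -/
noncomputable def coef (F : IntermediateField ℚ ℂ) (α : ℂ) (i : ℕ) : ℂ :=
  (((minpoly F α).coeff i : F) : ℂ)

/-- The hypothesis on the coefficients `a_i` of the minimal polynomial of `α` over `F`:
`a_{D-1}, …, a_{D-m+1}` lie in `K`, `a_{D-m}` or `a_m / a_0` lies in `K`, and `a_m` is different from
`a_0` times the complex conjugate of `a_{D-m}`. -/
def Asymmetric (F K : IntermediateField ℚ ℂ) (α : ℂ) (m : ℕ) : Prop :=
  1 ≤ m ∧ m ≤ deg F α ∧ (∀ j, 1 ≤ j → j < m → coef F α (deg F α - j) ∈ K) ∧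
    (coef F α (deg F α - m) ∈ K ∨ coef F α m / coef F α 0 ∈ K) ∧
    coef F α m ≠ coef F α 0 * (starRingEnd ℂ) (coef F α (deg F α - m))

/-- `h(α) ≥ (1 / 2) log ((1 + √5) / 2) / D`, where `D` is the degree of `α` over `F`; the height is
the logarithm of the Mahler measure of the minimal polynomial over `ℤ` divided by its degree. -/
def Bound (F : IntermediateField ℚ ℂ) (α : ℂ) : Prop :=
  ∀ f : ℤ[X], Irreducible f → aeval α f = 0 →
    (Real.log ((1 + √5) / 2) / 2) / (deg F α : ℝ) ≤
      Real.log ((f.map (Int.castRingHom ℂ)).mahlerMeasure) / (f.natDegree : ℝ)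

/-- The field `ℚ(Γ_div)`. -/
noncomputable def divField (Γ : Subgroup ℂˣ) : IntermediateField ℚ ℂ :=
  IntermediateField.adjoin ℚ {z : ℂ | z ≠ 0 ∧ ∃ n : ℕ, 1 ≤ n ∧ ∃ g ∈ Γ, (g : ℂ) = z ^ n}

/-- The field `ℚ(μ_∞)`. -/
noncomputable def cyclotomic : IntermediateField ℚ ℂ :=
  IntermediateField.adjoin ℚ {z : ℂ | ∃ n : ℕ, 1 ≤ n ∧ z ^ n = 1}

lemma bound_of (F K : IntermediateField ℚ ℂ) (hK : Kroneckerian K) (α : ℂ) (hα0 : α ≠ 0)
    (hα : IsAlgebraic ℚ α) (m : ℕ) (h : Asymmetric F K α m) : Bound F α := by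
  obtain ⟨hm, hmD, hlow, hat, hne⟩ := h
  classical
  by_cases hex : ∃ i, 1 ≤ i ∧ i < m ∧
      coef F α i ≠ coef F α 0 * (starRingEnd ℂ) (coef F α (deg F α - i))
  · obtain ⟨h1, h2, h3⟩ := Nat.find_spec hex
    have hmin := fun i => Nat.find_min hex (m := i)
    set k := Nat.find hex with hk
    intro f hf hfα
    refine Pool.Agent.W5h36.RS.main F K hK α hα0 hα k h1 (h2.le.trans hmD) ?_
      (Or.inl (hlow k h1 h2)) h3 f hf hfα
    intro i hi1 hi2
    refine ⟨hlow i hi1 (by omega), ?_⟩
    have h4 := hmin i hi2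
    push Not at h4
    exact h4 hi1 (by omega)
  · push Not at hex
    intro f hf hfα
    exact Pool.Agent.W5h36.RS.main F K hK α hα0 hα m hm hmD
      (fun i hi1 hi2 => ⟨hlow i hi1 hi2, hex i hi1 hi2⟩) hat hne f hf hfα

lemma kroneckerian_cyclotomic : Kroneckerian cyclotomic := by
  have hgen : ∀ z ∈ {z : ℂ | ∃ n : ℕ, 1 ≤ n ∧ z ^ n = 1}, IsIntegral ℚ z := by
    rintro z ⟨n, hn, hz⟩
    exact ⟨X ^ n - C 1, monic_X_pow_sub_C _ (by omega), by simp [hz]⟩
  refine ⟨IntermediateField.isAlgebraic_adjoin hgen, ?_⟩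
  rintro ⟨x, hx⟩
  have key : ∀ x, ∀ hx : x ∈ IntermediateField.adjoin ℚ {z : ℂ | ∃ n : ℕ, 1 ≤ n ∧ z ^ n = 1},
      ∃ y : cyclotomic, (y : ℂ) = (starRingEnd ℂ) x ∧
        ∀ σ : cyclotomic →+* ℂ, σ y = (starRingEnd ℂ) (σ ⟨x, hx⟩) := by
    intro x hx
    induction hx using IntermediateField.adjoin_induction with
    | mem z hz =>
      obtain ⟨n, hn, hzn⟩ := id hz
      have hzK : z ∈ cyclotomic := IntermediateField.subset_adjoin _ _ hz
      have hinv : ∀ w : ℂ, w ^ n = 1 → w⁻¹ = (starRingEnd ℂ) w := by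
        intro w hw
        have h1 : ‖w‖ = 1 := Complex.norm_eq_one_of_pow_eq_one hw (by omega)
        rw [Complex.inv_def, Complex.normSq_eq_norm_sq, h1]
        simp
      refine ⟨(⟨z, hzK⟩ : cyclotomic)⁻¹, ?_, fun σ => ?_⟩
      · show z⁻¹ = _
        exact hinv z hzn
      · rw [map_inv₀]
        apply hinv
        rw [← map_pow]
        have : (⟨z, hzK⟩ : cyclotomic) ^ n = 1 := Subtype.ext hzn
        rw [this, map_one]
    | algebraMap q =>
      refine ⟨algebraMap ℚ cyclotomic q, ?_, fun σ => ?_⟩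
      · show ((algebraMap ℚ ℂ) q) = (starRingEnd ℂ) ((algebraMap ℚ ℂ) q)
        simp
      · have h1 : (⟨(algebraMap ℚ ℂ) q, IntermediateField.algebraMap_mem _ q⟩ : cyclotomic) =
            algebraMap ℚ cyclotomic q := rfl
        have h2 : σ (algebraMap ℚ cyclotomic q) = (q : ℂ) := by
          rw [eq_ratCast, map_ratCast]
        show _ = (starRingEnd ℂ) (σ (algebraMap ℚ cyclotomic q))
        rw [h2]
        simp
    | add a b ha hb iha ihb =>
      obtain ⟨y, hy, hys⟩ := iha
      obtain ⟨z, hz, hzs⟩ := ihb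
      refine ⟨y + z, ?_, fun σ => ?_⟩
      · show (y : ℂ) + (z : ℂ) = _
        rw [hy, hz, map_add]
      · have h1 : σ ⟨a + b, add_mem ha hb⟩ = σ ⟨a, ha⟩ + σ ⟨b, hb⟩ := by
          rw [← map_add]
          rfl
        rw [map_add, hys, hzs, ← map_add, h1]
    | inv a ha iha =>
      obtain ⟨y, hy, hys⟩ := iha
      refine ⟨y⁻¹, ?_, fun σ => ?_⟩
      · show (y : ℂ)⁻¹ = _
        rw [hy, map_inv₀]
      · have h1 : σ ⟨a⁻¹, inv_mem ha⟩ = (σ ⟨a, ha⟩)⁻¹ := by
          rw [← map_inv₀]
          rfl
        rw [map_inv₀, hys, h1, map_inv₀]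
    | mul a b ha hb iha ihb =>
      obtain ⟨y, hy, hys⟩ := iha
      obtain ⟨z, hz, hzs⟩ := ihb
      refine ⟨y * z, ?_, fun σ => ?_⟩
      · show (y : ℂ) * (z : ℂ) = _
        rw [hy, hz, map_mul]
      · have h1 : σ ⟨a * b, mul_mem ha hb⟩ = σ ⟨a, ha⟩ * σ ⟨b, hb⟩ := by
          rw [← map_mul]
          rfl
        rw [map_mul, hys, hzs, ← map_mul, h1]
  exact key x hx

/-- **A theorem of Smyth and Schinzel relative to an arbitrary field, in particular relative to
`ℚ(Γ_div)`.** -/
theorem result :
    (∀ F K : IntermediateField ℚ ℂ, Kroneckerian K → ∀ α : ℂ, α ≠ 0 → IsAlgebraic ℚ α →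
      ∀ m : ℕ, Asymmetric F K α m → Bound F α) ∧
    (∀ Γ : Subgroup ℂˣ, ∀ α : ℂ, α ≠ 0 → IsAlgebraic ℚ α →
      ∀ m : ℕ, Asymmetric (divField Γ) cyclotomic α m → Bound (divField Γ) α) :=
  ⟨fun F K hK α hα0 hα m h => bound_of F K hK α hα0 hα m h,
    fun Γ α hα0 hα m h => bound_of (divField Γ) cyclotomic kroneckerian_cyclotomic α hα0 hα m h⟩

end Pool.Agent.Results.MP_f61260_nt.RelativeSmyth
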